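import Mathlib

/-!
# The number of isomorphism types of projective algebras generated by `k` plane sets

For every `k ≥ 1` there are exactly `2 ^ ℵ₀` isomorphism classes of projective algebras generated by
`k` subsets of the plane.

Upper bound: the isomorphism class is determined by the set of all pairs of terms with equal values
at the generators. Lower bound: for `Z ⊆ ℕ` let `S Z` be the set that consists of the points
`(n, n + 1)` and `(n + 1, n + 1)` for all `n`, and of the points `(n + 1, 0)` for `n ∈ Z`. Starting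
from the origin, which is the intersection of the axes, one reaches all the points `(n, 0)` and
`(0, n)` by terms which do not depend on `Z`; the intersection of `{(n + 1, 0)}` with `S Z` is empty
if and only if `n ∉ Z`. Hence isomorphisms of the algebras generated by `S Z` and `S Z'` cannot map
`S Z` to `S Z'` for `Z ≠ Z'`, and as the algebras are countable, there are `2 ^ ℵ₀` classes.
-/

namespace Pool.Agent.Results.MP_71be7b_lc.Continuum

open Cardinal Set

/-- The first axis. -/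
def xAxis : Set (ℝ × ℝ) := {p | p.2 = 0}

/-- The second axis. -/
def yAxis : Set (ℝ × ℝ) := {p | p.1 = 0}

/-- The projection to the first axis. -/
def proj₁ (S : Set (ℝ × ℝ)) : Set (ℝ × ℝ) := {p | p.2 = 0 ∧ ∃ y, (p.1, y) ∈ S}

/-- The projection to the second axis. -/
def proj₂ (S : Set (ℝ × ℝ)) : Set (ℝ × ℝ) := {p | p.1 = 0 ∧ ∃ x, (x, p.2) ∈ S}

/-- The product `A ⊗ B` (used for `A ⊆ xAxis` and `B ⊆ yAxis`). -/
def cross (A B : Set (ℝ × ℝ)) : Set (ℝ × ℝ) := {p | (p.1, 0) ∈ A ∧ (0, p.2) ∈ B}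

/-- Projective algebras of plane sets. -/
structure IsProjectiveAlgebra (F : Set (Set (ℝ × ℝ))) : Prop where
  compl : ∀ S ∈ F, Sᶜ ∈ F
  union : ∀ S ∈ F, ∀ T ∈ F, S ∪ T ∈ F
  proj₁ : ∀ S ∈ F, proj₁ S ∈ F
  proj₂ : ∀ S ∈ F, proj₂ S ∈ F
  cross : ∀ A ∈ F, ∀ B ∈ F, A ⊆ xAxis → B ⊆ yAxis → cross A B ∈ F

/-- The projective algebra generated by a family of plane sets. -/
def generated {k : ℕ} (S : Fin k → Set (ℝ × ℝ)) : Set (Set (ℝ × ℝ)) :=
  ⋂₀ {F | IsProjectiveAlgebra F ∧ ∀ i, S i ∈ F}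

/-- Isomorphism of projective algebras: there is a bijection that commutes with complements,
unions, both projections and the product. -/
def Isomorphic (F G : Set (Set (ℝ × ℝ))) : Prop :=
  ∃ φ : F ≃ G,
    (∀ S T : F, (T : Set (ℝ × ℝ)) = (S : Set (ℝ × ℝ))ᶜ →
      (φ T : Set (ℝ × ℝ)) = (φ S : Set (ℝ × ℝ))ᶜ) ∧
    (∀ S T U : F, (U : Set (ℝ × ℝ)) = (S : Set (ℝ × ℝ)) ∪ T →
      (φ U : Set (ℝ × ℝ)) = (φ S : Set (ℝ × ℝ)) ∪ φ T) ∧
    (∀ S T : F, (T : Set (ℝ × ℝ)) = proj₁ S → (φ T : Set (ℝ × ℝ)) = proj₁ (φ S)) ∧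
    (∀ S T : F, (T : Set (ℝ × ℝ)) = proj₂ S → (φ T : Set (ℝ × ℝ)) = proj₂ (φ S)) ∧
    (∀ A B U : F, (A : Set (ℝ × ℝ)) ⊆ xAxis → (B : Set (ℝ × ℝ)) ⊆ yAxis →
      (U : Set (ℝ × ℝ)) = cross A B → (φ U : Set (ℝ × ℝ)) = cross (φ A) (φ B))

/-- The projective algebras generated by `k` subsets of the plane. -/
def Generated (k : ℕ) : Type :=
  {F : Set (Set (ℝ × ℝ)) // ∃ S : Fin k → Set (ℝ × ℝ), F = generated S}

theorem isProjectiveAlgebra_generated {k : ℕ} (S : Fin k → Set (ℝ × ℝ)) :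
    IsProjectiveAlgebra (generated S) := by
  constructor
  · intro T hT F hF
    exact hF.1.compl _ (hT F hF)
  · intro T hT U hU F hF
    exact hF.1.union _ (hT F hF) _ (hU F hF)
  · intro T hT F hF
    exact hF.1.proj₁ _ (hT F hF)
  · intro T hT F hF
    exact hF.1.proj₂ _ (hT F hF)
  · intro T hT U hU h1 h2 F hF
    exact hF.1.cross _ (hT F hF) _ (hU F hF) h1 h2

theorem mem_generated {k : ℕ} (S : Fin k → Set (ℝ × ℝ)) (i : Fin k) : S i ∈ generated S :=
  fun _ hF => hF.2 i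

theorem subset_xAxis_iff {A : Set (ℝ × ℝ)} : A ⊆ xAxis ↔ A = proj₁ A := by
  constructor
  · intro h
    ext ⟨x, y⟩
    constructor
    · intro hp
      have : y = 0 := h hp
      exact ⟨this, y, hp⟩
    · rintro ⟨h0, z, hz⟩
      have h1 : z = 0 := h hz
      simp only at h0 hz
      rw [h0, ← h1]
      exact hz
  · intro h p hp
    rw [h] at hp
    exact hp.1

theorem subset_yAxis_iff {A : Set (ℝ × ℝ)} : A ⊆ yAxis ↔ A = proj₂ A := by
  constructor
  · intro h
    ext ⟨x, y⟩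
    constructor
    · intro hp
      have : x = 0 := h hp
      exact ⟨this, x, hp⟩
    · rintro ⟨h0, z, hz⟩
      have h1 : z = 0 := h hz
      simp only at h0 hz
      rw [h0, ← h1]
      exact hz
  · intro h p hp
    rw [h] at hp
    exact hp.1

theorem Isomorphic.refl (F : Set (Set (ℝ × ℝ))) : Isomorphic F F :=
  ⟨Equiv.refl _, fun _ _ h => h, fun _ _ _ h => h, fun _ _ h => h, fun _ _ h => h,
    fun _ _ _ _ _ h => h⟩

theorem Isomorphic.symm {F G : Set (Set (ℝ × ℝ))} (hF : IsProjectiveAlgebra F)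
    (h : Isomorphic F G) : Isomorphic G F := by
  obtain ⟨φ, h1, h2, h3, h4, h5⟩ := h
  have e3 : ∀ S T : G, (T : Set (ℝ × ℝ)) = proj₁ S →
      (φ.symm T : Set (ℝ × ℝ)) = proj₁ (φ.symm S) := by
    intro S T hT
    have := h3 (φ.symm S) ⟨_, hF.proj₁ _ (φ.symm S).2⟩ rfl
    rw [Equiv.apply_symm_apply, ← hT] at this
    have h' := Subtype.ext this
    rw [← h', Equiv.symm_apply_apply]
  have e4 : ∀ S T : G, (T : Set (ℝ × ℝ)) = proj₂ S →
      (φ.symm T : Set (ℝ × ℝ)) = proj₂ (φ.symm S) := by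
    intro S T hT
    have := h4 (φ.symm S) ⟨_, hF.proj₂ _ (φ.symm S).2⟩ rfl
    rw [Equiv.apply_symm_apply, ← hT] at this
    have h' := Subtype.ext this
    rw [← h', Equiv.symm_apply_apply]
  refine ⟨φ.symm, ?_, ?_, e3, e4, ?_⟩
  · intro S T hT
    have := h1 (φ.symm S) ⟨_, hF.compl _ (φ.symm S).2⟩ rfl
    rw [Equiv.apply_symm_apply, ← hT] at this
    have h' := Subtype.ext this
    rw [← h', Equiv.symm_apply_apply]
  · intro S T U hU
    have := h2 (φ.symm S) (φ.symm T) ⟨_, hF.union _ (φ.symm S).2 _ (φ.symm T).2⟩ rfl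
    rw [Equiv.apply_symm_apply, Equiv.apply_symm_apply, ← hU] at this
    have h' := Subtype.ext this
    rw [← h', Equiv.symm_apply_apply]
  · intro A B U hA hB hU
    have hA' : (φ.symm A : Set (ℝ × ℝ)) ⊆ xAxis :=
      subset_xAxis_iff.2 (e3 A A (subset_xAxis_iff.1 hA))
    have hB' : (φ.symm B : Set (ℝ × ℝ)) ⊆ yAxis :=
      subset_yAxis_iff.2 (e4 B B (subset_yAxis_iff.1 hB))
    have := h5 (φ.symm A) (φ.symm B)
      ⟨_, hF.cross _ (φ.symm A).2 _ (φ.symm B).2 hA' hB'⟩ hA' hB' rfl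
    rw [Equiv.apply_symm_apply, Equiv.apply_symm_apply, ← hU] at this
    have h' := Subtype.ext this
    rw [← h', Equiv.symm_apply_apply]

theorem Isomorphic.trans {F G H : Set (Set (ℝ × ℝ))} (h : Isomorphic F G) (h' : Isomorphic G H) :
    Isomorphic F H := by
  obtain ⟨φ, h1, h2, h3, h4, h5⟩ := h
  obtain ⟨ψ, g1, g2, g3, g4, g5⟩ := h'
  refine ⟨φ.trans ψ, ?_, ?_, ?_, ?_, ?_⟩
  · intro S T hT
    exact g1 _ _ (h1 _ _ hT)
  · intro S T U hU
    exact g2 _ _ _ (h2 _ _ _ hU)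
  · intro S T hT
    exact g3 _ _ (h3 _ _ hT)
  · intro S T hT
    exact g4 _ _ (h4 _ _ hT)
  · intro A B U hA hB hU
    refine g5 _ _ _ ?_ ?_ (h5 _ _ _ hA hB hU)
    · exact subset_xAxis_iff.2 (h3 A A (subset_xAxis_iff.1 hA))
    · exact subset_yAxis_iff.2 (h4 B B (subset_yAxis_iff.1 hB))

/-- Isomorphism as an equivalence relation on the projective algebras generated by `k` sets. -/
def isomorphism (k : ℕ) : Setoid (Generated k) where
  r F G := Isomorphic F.1 G.1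
  iseqv := by
    refine ⟨fun F => Isomorphic.refl _, fun {F G} h => ?_, fun h h' => h.trans h'⟩
    obtain ⟨S, hS⟩ := F.2
    exact Isomorphic.symm (by rw [hS]; exact isProjectiveAlgebra_generated S) h

/-! ### Terms -/

/-- Terms in `k` variables. -/
inductive Tm (k : ℕ) : Type
  | var : Fin k → Tm k
  | compl : Tm k → Tm k
  | union : Tm k → Tm k → Tm k
  | p1 : Tm k → Tm k
  | p2 : Tm k → Tm k
  | prod : Tm k → Tm k → Tm k

/-- The code of a term. -/
def Tm.code {k : ℕ} : Tm k → List ℕ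
  | var i => [0, i]
  | compl t => 1 :: t.code
  | union s t => 2 :: (s.code ++ t.code)
  | p1 t => 3 :: t.code
  | p2 t => 4 :: t.code
  | prod s t => 5 :: (s.code ++ t.code)

theorem Tm.code_prefix {k : ℕ} : ∀ (s t : Tm k) (a b : List ℕ), s.code ++ a = t.code ++ b →
    s = t ∧ a = b := by
  intro s
  induction s with
  | var i =>
    intro t a b h
    cases t <;> simp [Tm.code] at h
    exact ⟨by rw [Fin.ext h.1], h.2⟩
  | compl s ih =>
    intro t a b h
    cases t <;> simp [Tm.code] at h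
    obtain ⟨rfl, h'⟩ := ih _ _ _ h
    exact ⟨rfl, h'⟩
  | union s s' ih ih' =>
    intro t a b h
    cases t <;> simp [Tm.code] at h
    obtain ⟨rfl, h'⟩ := ih _ _ _ h
    obtain ⟨rfl, h''⟩ := ih' _ _ _ h'
    exact ⟨rfl, h''⟩
  | p1 s ih =>
    intro t a b h
    cases t <;> simp [Tm.code] at h
    obtain ⟨rfl, h'⟩ := ih _ _ _ h
    exact ⟨rfl, h'⟩
  | p2 s ih =>
    intro t a b h
    cases t <;> simp [Tm.code] at h
    obtain ⟨rfl, h'⟩ := ih _ _ _ h
    exact ⟨rfl, h'⟩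
  | prod s s' ih ih' =>
    intro t a b h
    cases t <;> simp [Tm.code] at h
    obtain ⟨rfl, h'⟩ := ih _ _ _ h
    obtain ⟨rfl, h''⟩ := ih' _ _ _ h'
    exact ⟨rfl, h''⟩

instance {k : ℕ} : Countable (Tm k) := by
  refine Function.Injective.countable (f := Tm.code) fun s t h => ?_
  exact (Tm.code_prefix s t [] [] (by rw [h])).1

/-- The value of a term. -/
def Tm.eval {k : ℕ} (S : Fin k → Set (ℝ × ℝ)) : Tm k → Set (ℝ × ℝ)
  | var i => S i
  | compl t => (t.eval S)ᶜ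
  | union s t => s.eval S ∪ t.eval S
  | p1 t => proj₁ (t.eval S)
  | p2 t => proj₂ (t.eval S)
  | prod s t => cross (s.eval S) (t.eval S)

theorem cross_inter (A B : Set (ℝ × ℝ)) :
    cross A B = cross (A ∩ xAxis) (B ∩ yAxis) := by
  ext p
  simp [cross, xAxis, yAxis]

theorem inter_mem {F : Set (Set (ℝ × ℝ))} (hF : IsProjectiveAlgebra F) {A B : Set (ℝ × ℝ)}
    (hA : A ∈ F) (hB : B ∈ F) : A ∩ B ∈ F := by
  have := hF.compl _ (hF.union _ (hF.compl _ hA) _ (hF.compl _ hB))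
  rwa [Set.compl_union, compl_compl, compl_compl] at this

theorem univ_mem {F : Set (Set (ℝ × ℝ))} (hF : IsProjectiveAlgebra F) {A : Set (ℝ × ℝ)}
    (hA : A ∈ F) : Set.univ ∈ F := by
  have := hF.union _ hA _ (hF.compl _ hA)
  rwa [Set.union_compl_self] at this

theorem proj₁_univ : proj₁ Set.univ = xAxis := by
  ext p; simp [proj₁, xAxis]

theorem proj₂_univ : proj₂ Set.univ = yAxis := by
  ext p; simp [proj₂, yAxis]

theorem xAxis_mem {F : Set (Set (ℝ × ℝ))} (hF : IsProjectiveAlgebra F) {A : Set (ℝ × ℝ)}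
    (hA : A ∈ F) : xAxis ∈ F := by
  have := hF.proj₁ _ (univ_mem hF hA)
  rwa [proj₁_univ] at this

theorem yAxis_mem {F : Set (Set (ℝ × ℝ))} (hF : IsProjectiveAlgebra F) {A : Set (ℝ × ℝ)}
    (hA : A ∈ F) : yAxis ∈ F := by
  have := hF.proj₂ _ (univ_mem hF hA)
  rwa [proj₂_univ] at this

theorem cross_mem {F : Set (Set (ℝ × ℝ))} (hF : IsProjectiveAlgebra F) {A B : Set (ℝ × ℝ)}
    (hA : A ∈ F) (hB : B ∈ F) : cross A B ∈ F := by
  rw [cross_inter]
  exact hF.cross _ (inter_mem hF hA (xAxis_mem hF hA)) _ (inter_mem hF hB (yAxis_mem hF hB))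
    Set.inter_subset_right Set.inter_subset_right

theorem eval_mem {k : ℕ} (S : Fin k → Set (ℝ × ℝ)) (t : Tm k) : t.eval S ∈ generated S := by
  have hF := isProjectiveAlgebra_generated S
  induction t with
  | var i => exact mem_generated S i
  | compl t ih => exact hF.compl _ ih
  | union s t ih ih' => exact hF.union _ ih _ ih'
  | p1 t ih => exact hF.proj₁ _ ih
  | p2 t ih => exact hF.proj₂ _ ih
  | prod s t ih ih' => exact cross_mem hF ih ih'

theorem generated_eq {k : ℕ} (S : Fin k → Set (ℝ × ℝ)) :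
    generated S = Set.range fun t : Tm k => t.eval S := by
  apply Set.Subset.antisymm
  · intro T hT
    refine hT _ ⟨⟨?_, ?_, ?_, ?_, ?_⟩, fun i => ⟨.var i, rfl⟩⟩
    · rintro _ ⟨t, rfl⟩
      exact ⟨.compl t, rfl⟩
    · rintro _ ⟨t, rfl⟩ _ ⟨s, rfl⟩
      exact ⟨.union t s, rfl⟩
    · rintro _ ⟨t, rfl⟩
      exact ⟨.p1 t, rfl⟩
    · rintro _ ⟨t, rfl⟩
      exact ⟨.p2 t, rfl⟩
    · rintro _ ⟨t, rfl⟩ _ ⟨s, rfl⟩ _ _
      exact ⟨.prod t s, rfl⟩
  · rintro _ ⟨t, rfl⟩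
    exact eval_mem S t

theorem exists_term {k : ℕ} {S : Fin k → Set (ℝ × ℝ)} {T : Set (ℝ × ℝ)}
    (hT : T ∈ generated S) : ∃ t : Tm k, t.eval S = T := by
  rw [generated_eq] at hT
  exact hT

/-! ### The upper bound -/

/-- The set of pairs of terms with equal values. -/
def theory {k : ℕ} (S : Fin k → Set (ℝ × ℝ)) : Set (Tm k × Tm k) :=
  {q | q.1.eval S = q.2.eval S}

theorem isomorphic_of_theory_eq {k : ℕ} {S S' : Fin k → Set (ℝ × ℝ)}
    (h : theory S = theory S') : Isomorphic (generated S) (generated S') := by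
  classical
  have key : ∀ s t : Tm k, s.eval S = t.eval S ↔ s.eval S' = t.eval S' := by
    intro s t
    have : (s, t) ∈ theory S ↔ (s, t) ∈ theory S' := by rw [h]
    exact this
  have ex : ∀ T : generated S, ∃ t : Tm k, t.eval S = T := fun T => exists_term T.2
  have ex' : ∀ T : generated S', ∃ t : Tm k, t.eval S' = T := fun T => exists_term T.2
  choose c hc using ex
  choose c' hc' using ex'
  let φ : generated S ≃ generated S' :=
    { toFun := fun T => ⟨(c T).eval S', eval_mem S' _⟩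
      invFun := fun T => ⟨(c' T).eval S, eval_mem S _⟩
      left_inv := by
        intro T
        apply Subtype.ext
        simp only
        rw [← hc T, key]
        rw [hc' ⟨(c T).eval S', eval_mem S' _⟩]
      right_inv := by
        intro T
        apply Subtype.ext
        simp only
        rw [← hc' T, ← key]
        rw [hc ⟨(c' T).eval S, eval_mem S _⟩] }
  have hφ : ∀ (t : Tm k) (T : generated S), t.eval S = T → (φ T : Set (ℝ × ℝ)) = t.eval S' := by
    intro t T ht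
    change (c T).eval S' = t.eval S'
    rw [← key, hc T, ht]
  refine ⟨φ, ?_, ?_, ?_, ?_, ?_⟩
  · intro A B hB
    rw [hφ (c A) A (hc A)]
    exact hφ (.compl (c A)) B (by rw [hB, ← hc A]; rfl)
  · intro A B U hU
    rw [hφ (c A) A (hc A), hφ (c B) B (hc B)]
    exact hφ (.union (c A) (c B)) U (by rw [hU, ← hc A, ← hc B]; rfl)
  · intro A B hB
    rw [hφ (c A) A (hc A)]
    exact hφ (.p1 (c A)) B (by rw [hB, ← hc A]; rfl)
  · intro A B hB
    rw [hφ (c A) A (hc A)]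
    exact hφ (.p2 (c A)) B (by rw [hB, ← hc A]; rfl)
  · intro A B U _ _ hU
    rw [hφ (c A) A (hc A), hφ (c B) B (hc B)]
    exact hφ (.prod (c A) (c B)) U (by rw [hU, ← hc A, ← hc B]; rfl)

theorem mk_le (k : ℕ) : #(Quotient (isomorphism k)) ≤ 𝔠 := by
  classical
  have h : ∀ q : Quotient (isomorphism k), ∃ S : Fin k → Set (ℝ × ℝ),
      (q.out).1 = generated S := fun q => q.out.2
  choose S hS using h
  have hinj : Function.Injective fun q : Quotient (isomorphism k) => theory (S q) := by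
    intro q q' hqq
    have h1 := isomorphic_of_theory_eq hqq
    rw [← hS, ← hS] at h1
    have h2 : Quotient.mk (isomorphism k) q.out = Quotient.mk (isomorphism k) q'.out :=
      Quotient.sound h1
    rwa [Quotient.out_eq, Quotient.out_eq] at h2
  calc #(Quotient (isomorphism k)) ≤ #(Set (Tm k × Tm k)) := mk_le_of_injective hinj
    _ = 2 ^ #(Tm k × Tm k) := mk_set
    _ ≤ 2 ^ ℵ₀ := power_le_power_left two_ne_zero mk_le_aleph0
    _ = 𝔠 := two_power_aleph0

/-! ### The lower bound -/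

/-- The set coding `Z`. -/
def code (Z : Set ℕ) : Set (ℝ × ℝ) :=
  {p | (∃ n : ℕ, p = ((n : ℝ), (n : ℝ) + 1)) ∨ (∃ n : ℕ, p = ((n : ℝ) + 1, (n : ℝ) + 1)) ∨
    ∃ n ∈ Z, p = ((n : ℝ) + 1, 0)}

section Names

variable {k : ℕ} (i : Fin k)

/-- intersection of terms -/
def Tm.inter (s t : Tm k) : Tm k := .compl (.union (.compl s) (.compl t))

/-- the plane -/
def tU : Tm k := .union (.var i) (.compl (.var i))

/-- the first axis -/
def tX : Tm k := .p1 (tU i)

/-- the second axis -/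
def tY : Tm k := .p2 (tU i)

/-- the part off the first axis -/
def tP : Tm k := (Tm.var i).inter (.compl (tX i))

/-- the points `(n, 0)` and `(0, n)` -/
def tAB : ℕ → Tm k × Tm k
  | 0 => ((tX i).inter (tY i), (tX i).inter (tY i))
  | n + 1 =>
    let b := (Tm.p2 ((tP i).inter (.prod (tAB n).1 (tY i)))).inter (.compl (tAB n).2)
    ((Tm.p1 ((tP i).inter (.prod (tX i) b))).inter (.compl (tAB n).1), b)

variable {i} {S : Fin k → Set (ℝ × ℝ)}

theorem eval_inter (s t : Tm k) : (s.inter t).eval S = s.eval S ∩ t.eval S := by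
  simp [Tm.inter, Tm.eval, Set.compl_union]

theorem eval_tU : (tU i).eval S = Set.univ := by
  simp [tU, Tm.eval]

theorem eval_tX : (tX i).eval S = xAxis := by
  simp only [tX, Tm.eval, eval_tU, proj₁_univ]

theorem eval_tY : (tY i).eval S = yAxis := by
  simp only [tY, Tm.eval, eval_tU, proj₂_univ]

theorem mem_code_off {Z : Set ℕ} {x y : ℝ} :
    (x, y) ∈ code Z ∩ xAxisᶜ ↔
      (∃ n : ℕ, x = n ∧ y = n + 1) ∨ ∃ n : ℕ, x = n + 1 ∧ y = n + 1 := by
  constructor
  · rintro ⟨h | h | h, h'⟩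
    · obtain ⟨n, hn⟩ := h
      exact Or.inl ⟨n, Prod.mk.inj hn⟩
    · obtain ⟨n, hn⟩ := h
      exact Or.inr ⟨n, Prod.mk.inj hn⟩
    · obtain ⟨n, -, hn⟩ := h
      exact absurd (Prod.mk.inj hn).2 h'
  · rintro (⟨n, rfl, rfl⟩ | ⟨n, rfl, rfl⟩)
    · refine ⟨Or.inl ⟨n, rfl⟩, ?_⟩
      change ¬ ((n : ℝ) + 1 = 0)
      positivity
    · refine ⟨Or.inr (Or.inl ⟨n, rfl⟩), ?_⟩
      change ¬ ((n : ℝ) + 1 = 0)
      positivity

theorem eval_tAB {Z : Set ℕ} (hS : S i = code Z) (n : ℕ) :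
    (tAB i n).1.eval S = {((n : ℝ), 0)} ∧ (tAB i n).2.eval S = {((0 : ℝ), (n : ℝ))} := by
  have hP : (tP i).eval S = code Z ∩ xAxisᶜ := by
    rw [tP, eval_inter]
    simp only [Tm.eval]
    rw [eval_tX, hS]
  induction n with
  | zero =>
    have : (tX i).eval S ∩ (tY i).eval S = {((0 : ℝ), (0 : ℝ))} := by
      rw [eval_tX, eval_tY]
      ext ⟨x, y⟩
      simp [xAxis, yAxis, and_comm]
    simp only [tAB, eval_inter, this, Nat.cast_zero, and_self]
  | succ n ih =>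
    obtain ⟨ih1, ih2⟩ := ih
    have hb : (tAB i (n + 1)).2.eval S = {((0 : ℝ), ((n + 1 : ℕ) : ℝ))} := by
      simp only [tAB, eval_inter, Tm.eval, hP, ih1, ih2, eval_tY]
      ext ⟨x, y⟩
      simp only [mem_inter_iff, mem_compl_iff, mem_singleton_iff, Prod.mk.injEq, proj₂, cross,
        mem_ofPred_eq, yAxis]
      constructor
      · rintro ⟨⟨rfl, z, hz, ⟨h1, -⟩, -⟩, h2⟩
        replace hz := mem_code_off.1 hz
        refine ⟨rfl, ?_⟩
        subst h1
        rcases hz with ⟨m, h3, h4⟩ | ⟨m, h3, h4⟩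
        · have : n = m := by exact_mod_cast h3
          subst this
          push_cast
          exact h4
        · exact absurd ⟨rfl, by rw [h4, ← h3]⟩ h2
      · rintro ⟨rfl, rfl⟩
        refine ⟨⟨rfl, n, ?_, ⟨rfl, trivial⟩, trivial⟩, ?_⟩
        · exact mem_code_off.2 (Or.inl ⟨n, rfl, by push_cast; rfl⟩)
        · rintro ⟨-, h⟩
          have : n + 1 = n := by exact_mod_cast h
          omega
    refine ⟨?_, hb⟩
    have ha : (tAB i (n + 1)).1 =
      (Tm.p1 ((tP i).inter (.prod (tX i) (tAB i (n + 1)).2))).inter (.compl (tAB i n).1) := rfl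
    rw [ha]
    simp only [eval_inter, Tm.eval, hP, hb, ih1, eval_tX]
    ext ⟨x, y⟩
    simp only [mem_inter_iff, mem_compl_iff, mem_singleton_iff, Prod.mk.injEq, proj₁, cross,
      mem_ofPred_eq, xAxis]
    constructor
    · rintro ⟨⟨rfl, z, hz, -, -, h1⟩, h2⟩
      replace hz := mem_code_off.1 hz
      refine ⟨?_, rfl⟩
      subst h1
      rcases hz with ⟨m, h3, h4⟩ | ⟨m, h3, h4⟩
      · have : n + 1 = m + 1 := by exact_mod_cast h4
        have : n = m := by omega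
        subst this
        exact absurd ⟨h3, rfl⟩ h2
      · rw [h3, ← h4]
    · rintro ⟨rfl, rfl⟩
      refine ⟨⟨rfl, (n : ℝ) + 1, ?_, trivial, trivial, by push_cast; rfl⟩, ?_⟩
      · exact mem_code_off.2 (Or.inr ⟨n, by push_cast; rfl, rfl⟩)
      · rintro ⟨h, -⟩
        have : n + 1 = n := by exact_mod_cast h
        omega

/-- The term which codes whether `n` belongs to `Z`. -/
def tQ (i : Fin k) (n : ℕ) : Tm k := (tAB i (n + 1)).1.inter (.var i)

theorem eval_tQ {Z : Set ℕ} (hS : S i = code Z) (n : ℕ) :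
    (tQ i n).eval S = ∅ ↔ n ∉ Z := by
  rw [tQ, eval_inter, (eval_tAB hS (n + 1)).1]
  simp only [Tm.eval, hS]
  rw [Set.singleton_inter_eq_empty, not_iff_not]
  constructor
  · rintro (⟨m, h⟩ | ⟨m, h⟩ | ⟨m, hm, h⟩)
    · have h1 := (Prod.mk.inj h).2
      have : (0 : ℝ) < (m : ℝ) + 1 := by positivity
      exact absurd h1 this.ne
    · have h1 := (Prod.mk.inj h).2
      have : (0 : ℝ) < (m : ℝ) + 1 := by positivity
      exact absurd h1 this.ne
    · have h1 := (Prod.mk.inj h).1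
      have : n + 1 = m + 1 := by exact_mod_cast h1
      have : n = m := by omega
      rwa [this]
  · intro h
    exact Or.inr (Or.inr ⟨n, h, by push_cast; rfl⟩)

end Names

/-- the empty set -/
def tE {k : ℕ} (i : Fin k) : Tm k := .compl (tU i)

theorem eval_tE {k : ℕ} (i : Fin k) (S : Fin k → Set (ℝ × ℝ)) : (tE i).eval S = ∅ := by
  simp only [tE, Tm.eval, eval_tU, Set.compl_univ]

theorem iso_eval {k : ℕ} {S V : Fin k → Set (ℝ × ℝ)} {G : Set (Set (ℝ × ℝ))}
    (φ : generated S ≃ G)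
    (h1 : ∀ S₁ T : generated S, (T : Set (ℝ × ℝ)) = (S₁ : Set (ℝ × ℝ))ᶜ →
      (φ T : Set (ℝ × ℝ)) = (φ S₁ : Set (ℝ × ℝ))ᶜ)
    (h2 : ∀ S₁ T U : generated S, (U : Set (ℝ × ℝ)) = (S₁ : Set (ℝ × ℝ)) ∪ T →
      (φ U : Set (ℝ × ℝ)) = (φ S₁ : Set (ℝ × ℝ)) ∪ φ T)
    (h3 : ∀ S₁ T : generated S, (T : Set (ℝ × ℝ)) = proj₁ S₁ →
      (φ T : Set (ℝ × ℝ)) = proj₁ (φ S₁))
    (h4 : ∀ S₁ T : generated S, (T : Set (ℝ × ℝ)) = proj₂ S₁ →
      (φ T : Set (ℝ × ℝ)) = proj₂ (φ S₁))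
    (h5 : ∀ A B U : generated S, (A : Set (ℝ × ℝ)) ⊆ xAxis → (B : Set (ℝ × ℝ)) ⊆ yAxis →
      (U : Set (ℝ × ℝ)) = cross A B → (φ U : Set (ℝ × ℝ)) = cross (φ A) (φ B))
    (hgen : ∀ i, (φ ⟨S i, mem_generated S i⟩ : Set (ℝ × ℝ)) = V i) (t : Tm k) :
    (φ ⟨t.eval S, eval_mem S t⟩ : Set (ℝ × ℝ)) = t.eval V := by
  have hF := isProjectiveAlgebra_generated S
  have hinter : ∀ A B U : generated S, (U : Set (ℝ × ℝ)) = (A : Set (ℝ × ℝ)) ∩ B →
      (φ U : Set (ℝ × ℝ)) = (φ A : Set (ℝ × ℝ)) ∩ φ B := by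
    intro A B U hU
    have e1 := h1 A ⟨_, hF.compl _ A.2⟩ rfl
    have e2 := h1 B ⟨_, hF.compl _ B.2⟩ rfl
    have e3 := h2 ⟨_, hF.compl _ A.2⟩ ⟨_, hF.compl _ B.2⟩
      ⟨_, hF.union _ (hF.compl _ A.2) _ (hF.compl _ B.2)⟩ rfl
    have e4 := h1 ⟨_, hF.union _ (hF.compl _ A.2) _ (hF.compl _ B.2)⟩ U
      (by rw [hU]; simp [Set.compl_union])
    rw [e4, e3, e1, e2, Set.compl_union, compl_compl, compl_compl]
  induction t with
  | var i => exact hgen i
  | compl t ih => exact (h1 ⟨_, eval_mem S t⟩ ⟨_, eval_mem S (.compl t)⟩ rfl).trans (by rw [ih]; rfl)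
  | union s t ih ih' =>
    exact (h2 ⟨_, eval_mem S s⟩ ⟨_, eval_mem S t⟩ ⟨_, eval_mem S (.union s t)⟩ rfl).trans
      (by rw [ih, ih']; rfl)
  | p1 t ih => exact (h3 ⟨_, eval_mem S t⟩ ⟨_, eval_mem S (.p1 t)⟩ rfl).trans (by rw [ih]; rfl)
  | p2 t ih => exact (h4 ⟨_, eval_mem S t⟩ ⟨_, eval_mem S (.p2 t)⟩ rfl).trans (by rw [ih]; rfl)
  | prod s t ih ih' =>
    have hX : xAxis ∈ generated S := xAxis_mem hF (eval_mem S s)
    have hY : yAxis ∈ generated S := yAxis_mem hF (eval_mem S s)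
    have hU : Set.univ ∈ generated S := univ_mem hF (eval_mem S s)
    have hφU : (φ ⟨Set.univ, hU⟩ : Set (ℝ × ℝ)) = Set.univ := by
      have e1 := h1 ⟨_, eval_mem S s⟩ ⟨_, hF.compl _ (eval_mem S s)⟩ rfl
      have e2 := h2 ⟨_, eval_mem S s⟩ ⟨_, hF.compl _ (eval_mem S s)⟩ ⟨Set.univ, hU⟩
        (by simp)
      rw [e2, e1, Set.union_compl_self]
    have hφX : (φ ⟨xAxis, hX⟩ : Set (ℝ × ℝ)) = xAxis := by
      rw [h3 ⟨Set.univ, hU⟩ ⟨xAxis, hX⟩ proj₁_univ.symm, hφU, proj₁_univ]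
    have hφY : (φ ⟨yAxis, hY⟩ : Set (ℝ × ℝ)) = yAxis := by
      rw [h4 ⟨Set.univ, hU⟩ ⟨yAxis, hY⟩ proj₂_univ.symm, hφU, proj₂_univ]
    have e1 := hinter ⟨_, eval_mem S s⟩ ⟨_, hX⟩ ⟨_, inter_mem hF (eval_mem S s) hX⟩ rfl
    have e2 := hinter ⟨_, eval_mem S t⟩ ⟨_, hY⟩ ⟨_, inter_mem hF (eval_mem S t) hY⟩ rfl
    have e3 := h5 ⟨_, inter_mem hF (eval_mem S s) hX⟩ ⟨_, inter_mem hF (eval_mem S t) hY⟩
      ⟨_, eval_mem S (.prod s t)⟩ Set.inter_subset_right Set.inter_subset_right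
      (cross_inter _ _)
    rw [e3, e1, e2, ih, ih', hφX, hφY, ← cross_inter]
    rfl

/-- The set `Z` can be recovered from the image of the generator under an isomorphism. -/
theorem exists_image {k : ℕ} (i : Fin k) (Z : Set ℕ) {R : Fin k → Set (ℝ × ℝ)}
    (h : Isomorphic (generated fun _ : Fin k => code Z) (generated R)) :
    ∃ t : Tm k, ∀ n, n ∉ Z ↔ (tQ i n).eval (fun _ => t.eval R) = ∅ := by
  obtain ⟨φ, h1, h2, h3, h4, h5⟩ := h
  obtain ⟨t, ht⟩ := exists_term (φ ⟨code Z, mem_generated (fun _ => code Z) i⟩).2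
  refine ⟨t, fun n => ?_⟩
  have e := iso_eval (V := fun _ => t.eval R) φ h1 h2 h3 h4 h5 (fun _ => ht.symm)
  rw [← eval_tQ (i := i) (S := fun _ => code Z) rfl n]
  have e1 : (φ ⟨(tE i).eval fun _ => code Z, eval_mem _ _⟩ : Set (ℝ × ℝ)) = ∅ := by
    rw [e, eval_tE]
  rw [← e (tQ i n)]
  constructor
  · intro h
    have : (⟨(tQ i n).eval fun _ => code Z, eval_mem _ _⟩ :
        generated (fun _ : Fin k => code Z)) =
        ⟨(tE i).eval fun _ => code Z, eval_mem _ _⟩ := Subtype.ext (h.trans (eval_tE i _).symm)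
    rw [this, e1]
  · intro h
    have := φ.injective (Subtype.ext (h.trans e1.symm))
    exact (congrArg Subtype.val this).trans (eval_tE i _)

theorem le_mk {k : ℕ} (hk : 1 ≤ k) : 𝔠 ≤ #(Quotient (isomorphism k)) := by
  classical
  let i : Fin k := ⟨0, hk⟩
  let G : Set ℕ → Generated k := fun Z => ⟨generated fun _ => code Z, _, rfl⟩
  let q : Set ℕ → Quotient (isomorphism k) := fun Z => Quotient.mk _ (G Z)
  have h : ∀ c : Quotient (isomorphism k), ∃ S : Fin k → Set (ℝ × ℝ),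
      (c.out).1 = generated S := fun c => c.out.2
  choose R hR using h
  have hiso : ∀ Z, Isomorphic (generated fun _ : Fin k => code Z) (generated (R (q Z))) := by
    intro Z
    rw [← hR]
    have h1 : Quotient.mk (isomorphism k) (q Z).out = Quotient.mk (isomorphism k) (G Z) :=
      Quotient.out_eq _
    exact (isomorphism k).symm (Quotient.exact h1)
  choose t ht using fun Z => exists_image i Z (hiso Z)
  have hinj : Function.Injective fun Z : Set ℕ => (q Z, t Z) := by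
    intro Z Z' hZ
    have h1 : q Z = q Z' := (Prod.mk.inj hZ).1
    have h2 : t Z = t Z' := (Prod.mk.inj hZ).2
    ext n
    rw [← not_iff_not, ht Z n, ht Z' n, h1, h2]
  have h1 : 𝔠 ≤ #(Quotient (isomorphism k)) * ℵ₀ :=
    calc 𝔠 = #(Set ℕ) := by rw [mk_set, mk_nat, two_power_aleph0]
      _ ≤ #(Quotient (isomorphism k) × Tm k) := mk_le_of_injective hinj
      _ = #(Quotient (isomorphism k)) * #(Tm k) := by rw [mk_prod, lift_id, lift_id]
      _ ≤ #(Quotient (isomorphism k)) * ℵ₀ := by gcongr; exact mk_le_aleph0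
  by_contra h2
  rw [not_le] at h2
  have h3 : #(Quotient (isomorphism k)) * ℵ₀ < 𝔠 :=
    mul_lt_of_lt aleph0_le_continuum h2 aleph0_lt_continuum
  exact absurd h1 (not_le.2 h3)

/-- **For every `k ≥ 1` there are exactly `2 ^ ℵ₀` isomorphism classes of projective algebras
generated by `k` subsets of the plane.** -/
theorem result (k : ℕ) (hk : 1 ≤ k) : #(Quotient (isomorphism k)) = 2 ^ ℵ₀ := by
  rw [two_power_aleph0]
  exact le_antisymm (mk_le k) (le_mk hk)

end Pool.Agent.Results.MP_71be7b_lc.Continuum
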